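import Mathlib

/-!
# Project GR, part D: the representations of degree `n` of `SL_n(ℤ)` (statements, with complete paper proofs)

Goal: `S_SUPER`: a homomorphism `SL_n(ℤ) → GL_n(K)`, `n ≥ 3`, `K` algebraically closed of characteristic zero, has finite image or is
conjugate to the standard representation or to its dual.
-/

set_option autoImplicit false

namespace Pool.Agent.H317.GR

open Matrix Module

/-- `SL_n(ℤ)` -/
abbrev SZ (n : ℕ) : Type := SpecialLinearGroup (Fin n) ℤ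

/-- `A ↦ (A⁻¹)ᵀ` as a homomorphism of `SL_n(R)` -/
def dl (n : ℕ) (R : Type) [CommRing R] :
    SpecialLinearGroup (Fin n) R →* SpecialLinearGroup (Fin n) R where
  toFun A := (A⁻¹).transpose
  map_one' := by
    apply Subtype.ext
    change ((1 : SpecialLinearGroup (Fin n) R)⁻¹.val)ᵀ = 1
    rw [inv_one]
    change (1 : Matrix (Fin n) (Fin n) R)ᵀ = 1
    rw [Matrix.transpose_one]
  map_mul' A B := by
    apply Subtype.ext
    change (((A * B)⁻¹).val)ᵀ = (A⁻¹).valᵀ * (B⁻¹).valᵀ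
    rw [_root_.mul_inv_rev]
    change ((B⁻¹).val * (A⁻¹).val)ᵀ = (A⁻¹).valᵀ * (B⁻¹).valᵀ
    rw [Matrix.transpose_mul]

/-- the standard representation over `K` -/
def std (n : ℕ) (K : Type) [Field K] : SZ n →* GL (Fin n) K :=
  (SpecialLinearGroup.toGL).comp (SpecialLinearGroup.map (Int.castRingHom K))

/-- the dual of the standard representation over `K` -/
def dstd (n : ℕ) (K : Type) [Field K] : SZ n →* GL (Fin n) K := (std n K).comp (dl n ℤ)

/-- A 'Steinberg system' of operators with parameter `k`, with indices in `J`: unipotent operators `T i j` (`i ≠ j` in `J`) satisfying the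
relations of the elementary matrices `1 + k E_ij`. -/
def StSys {K V ι : Type} [Field K] [AddCommGroup V] [Module K V] (J : Finset ι) (k : ℕ)
    (T : ι → ι → Module.End K V) : Prop :=
  (∀ i ∈ J, ∀ j ∈ J, i ≠ j → IsNilpotent (T i j - 1)) ∧
  (∀ i ∈ J, ∀ j ∈ J, ∀ a ∈ J, ∀ b ∈ J, i ≠ j → a ≠ b → j ≠ a → i ≠ b →
    T i j * T a b = T a b * T i j) ∧
  (∀ i ∈ J, ∀ j ∈ J, ∀ l ∈ J, i ≠ j → j ≠ l → i ≠ l →
    T i j * T j l = T i l ^ k * (T j l * T i j))

/-- the common fixed space of the `T i a`, `a ∈ J`, `a ≠ i` -/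
def FixW {K V ι : Type} [Field K] [AddCommGroup V] [Module K V] [DecidableEq ι] (J : Finset ι) (i : ι)
    (T : ι → ι → Module.End K V) : Submodule K V :=
  ⨅ a ∈ J.erase i, LinearMap.ker (T i a - 1)

/-- the space of all `v` with `(T i a - 1) v ∈ FixW` for all `a ∈ J`, `a ≠ i` -/
def FixW2 {K V ι : Type} [Field K] [AddCommGroup V] [Module K V] [DecidableEq ι] (J : Finset ι) (i : ι)
    (T : ι → ι → Module.End K V) : Submodule K V :=
  ⨅ a ∈ J.erase i, (FixW J i T).comap (T i a - 1)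

/-- **STP**. The key step. Let `m = |J| ≥ 3`, `i ∈ J`, `J' = J.erase i`, `T` a Steinberg system on `V` with indices in `J` with some
`T i a ≠ 1`, and assume (`hR`) that in dimension `< |J'|` all Steinberg systems with indices in `J'` are trivial.
With `W = FixW J i T`, `W2 = FixW2 J i T`: `W ≤ W2`, `1 ≤ dim W < dim W2`, and `|J'| ≤ dim W` or `dim W + |J'| ≤ dim W2`.

Proof. Write `T_ab` for `T a b`; all indices in `J`. The `T_ia` (`a ≠ i`) commute (second relation, with the same first index: `i ≠ b`, `j ≠ a=i`).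
(0) `W ≠ 0` as the `T_ia` are commuting unipotents on `V ≠ 0` (`V ≠ 0` since some `T_ia ≠ 1`), and `W ≠ V`.
`W ≤ W2`: trivial. `W2 ≠ W`: the `T_ia` act on `V/W ≠ 0` as commuting unipotents, so have a common nonzero fixed vector there.
(Commuting nilpotents `N_1, …, N_r` on `V ≠ 0` have a common kernel vector: induction, `ker N_1 ≠ 0` is stable under the others.)
(1) `W` is stable under `T_jl` for `j ≠ l` in `J'`: let `v ∈ W`. For `a ≠ j`, `a ∈ J'`: `T_ia` commutes with `T_jl` (`a ≠ j`, `i ≠ l`), so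
`T_ia T_jl v = T_jl v`. For `a = j`: `T_ij T_jl v = T_il^k T_jl T_ij v = T_il^k T_jl v = T_jl T_il^k v = T_jl v` (`T_il`, `T_jl` commute:
`l ≠ j`, `i ≠ l`).
(2) `W2` is stable under `T_jl`: let `v ∈ W2`. For `a ≠ j`: `(T_ia - 1) T_jl v = T_jl (T_ia - 1) v ∈ W` by (1). For `a = j`:
`(T_ij - 1) T_jl v = T_il^k T_jl T_ij v - T_jl v = T_jl (T_il^k T_ij v - v)`, and
`T_il^k T_ij v - v = T_il^k (T_ij - 1) v + (T_il^k - 1) v ∈ W` (`T_il^s w = w` for `w ∈ W`, and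
`(T_il^k - 1) v = k • (T_il - 1) v` by induction, because `(T_il - 1) v ∈ W` is fixed by `T_il`).
(3) So the `T_jl`, `j ≠ l ∈ J'`, restrict to Steinberg systems (same `k`) on `W` and on the quotient `W2/W` (as a type: `↥W2 ⧸ (W.comap W2.subtype)`).
Suppose `dim W < |J'|` and `dim W2 - dim W < |J'|`. By `hR` all these operators are trivial on `W` and on `W2/W`.
Let `l ∈ J'` and choose `j ∈ J'`, `j ≠ l` (`|J'| ≥ 2`). Let `v ∈ W2`, `T_jl v = v + w'`, `T_ij v = v + w`, with `w, w' ∈ W`. Then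
`T_ij T_jl v = T_ij (v + w') = v + w + w'` and `T_il^k T_jl T_ij v = T_il^k (T_jl (v + w)) = T_il^k (v + w' + w) = T_il^k v + w' + w`.
So `T_il^k v = v`; but `T_il^k v = v + k • (T_il - 1) v` (see (2)), so `(T_il - 1) v = 0` (`k ≥ 1`, characteristic zero). As `l ∈ J'` is
arbitrary, `W2 ≤ W`, a contradiction. -/
def S_STP : Prop := ∀ (K V ι : Type) [Field K] [CharZero K] [AddCommGroup V] [Module K V]
  [FiniteDimensional K V] [DecidableEq ι] (J : Finset ι) (k : ℕ) (T : ι → ι → Module.End K V),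
  1 ≤ k → 3 ≤ J.card → StSys J k T → ∀ i ∈ J, (∃ a ∈ J, a ≠ i ∧ T i a ≠ 1) →
  (∀ (U : Type) [AddCommGroup U] [Module K U] [FiniteDimensional K U] (S : ι → ι → Module.End K U),
    StSys (J.erase i) k S → finrank K U < (J.erase i).card →
    ∀ a ∈ J.erase i, ∀ b ∈ J.erase i, a ≠ b → S a b = 1) →
  FixW J i T ≤ FixW2 J i T ∧ 1 ≤ finrank K (FixW J i T) ∧
    finrank K (FixW J i T) < finrank K (FixW2 J i T) ∧
    ((J.erase i).card ≤ finrank K (FixW J i T) ∨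
      finrank K (FixW J i T) + (J.erase i).card ≤ finrank K (FixW2 J i T))

/-- **STR** (hypothesis `S_STP`). In dimension `< |J|`, `|J| ≥ 2`, Steinberg systems are trivial.

Proof. Induction on `m = |J|`. `m = 2`: `dim V ≤ 1`, and a unipotent operator in dimension `≤ 1` is `1` (a nilpotent operator on a
space of dimension `≤ 1` is zero). `m ≥ 3`: suppose `T i a ≠ 1` for some `i ≠ a` in `J`. By `S_STP` (its hypothesis on `J.erase i` is the
induction hypothesis, `|J.erase i| = m - 1 ≥ 2`) `m - 1 ≤ dim W`, or `dim W + (m-1) ≤ dim W2`. As `dim W < dim W2 ≤ dim V ≤ m - 1`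
and `dim W ≥ 1` both are impossible. -/
def S_STR : Prop := ∀ (K V ι : Type) [Field K] [CharZero K] [AddCommGroup V] [Module K V]
  [FiniteDimensional K V] [DecidableEq ι] (J : Finset ι) (k : ℕ) (T : ι → ι → Module.End K V),
  1 ≤ k → 2 ≤ J.card → StSys J k T → finrank K V < J.card →
  ∀ a ∈ J, ∀ b ∈ J, a ≠ b → T a b = 1

/-- **SU2** (hypotheses `S_STP`, `S_STR`). Let `τ : SL_n(ℤ) → GL_n(K)`, `n ≥ 3`, `k ≥ 1`, with all `τ(x_ij(k))` unipotent and none trivial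
(`x_ij(k) = 1 + k E_ij`). Then `τ(x_ij(k)) = 1 + v_i φ_ij` for all `i ≠ j` or `τ(x_ij(k)) = 1 + v_ij φ_i` for all `i ≠ j`.

Proof. Let `V = Fin n → K`, `T i j` = the operator `Matrix.toLin' (τ(x_ij(k)))` for `i ≠ j` (`1` if `i = j`); it is a Steinberg system with
`J = Finset.univ` (relations between elementary matrices: `[x_ij(a), x_jl(b)] = x_il(ab)`, so with `a = b = k`: `x_il(k²) = x_il(k)^k`; cf. `tv_comm` in
`Pool/Graph/R_pool_sql_team_seeded_ab47071d/TH567/PR/Gen.lean`). Fix `i`. By `S_STP` (hypothesis supplied by `S_STR`), with `W_i = FixW univ i T`: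
`n - 1 ≤ dim W_i`, or `dim W_i + n - 1 ≤ dim W2 ≤ n`, and `1 ≤ dim W_i < dim W2 ≤ n`. So `dim W_i ∈ {1, n-1}`, `dim W2 = n`, i.e. `W2 = V`, i.e.
`(T i a - 1) V ≤ W_i` for all `a ≠ i`.
All `W_i` have the same dimension: for `i ≠ j` the matrix `w = x_ij(1) x_ji(-1) x_ij(1)` (`w e_i = -e_j`, `w e_j = e_i`, `w e_a = e_a` otherwise)
satisfies `w x_ia(k) w⁻¹ = x_ja(-k)` for `a ≠ i, j` and `w x_ij(k) w⁻¹ = x_ji(-k)`; so `τ(w) W_i = W_j`.
Case `dim W_i = 1` for all `i`, `W_i = K v_i`: `T i a - 1` has image in `K v_i`, so its matrix is `vecMulVec v_i φ_ia`; `φ_ia ≠ 0` as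
`T i a ≠ 1`. Case `dim W_i = n - 1` for all `i`: `T i a - 1` kills `W_i = ker φ_i` (`φ_i ≠ 0`), so its matrix is
`vecMulVec v_ia φ_i`, `v_ia ≠ 0`. -/
def S_SU2 : Prop := ∀ (n : ℕ), 3 ≤ n → ∀ (K : Type) [Field K] [CharZero K] (τ : SZ n →* GL (Fin n) K)
  (k : ℕ), 1 ≤ k →
  (∀ (i j : Fin n) (h : i ≠ j), IsNilpotent ((τ (SpecialLinearGroup.transvection h (k : ℤ))).val - 1)) →
  (∀ (i j : Fin n) (h : i ≠ j), τ (SpecialLinearGroup.transvection h (k : ℤ)) ≠ 1) →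
  (∃ (v : Fin n → Fin n → K) (φ : Fin n → Fin n → Fin n → K), ∀ (i j : Fin n) (h : i ≠ j),
    v i ≠ 0 ∧ φ i j ≠ 0 ∧
      (τ (SpecialLinearGroup.transvection h (k : ℤ))).val = 1 + vecMulVec (v i) (φ i j)) ∨
  (∃ (v : Fin n → Fin n → Fin n → K) (φ : Fin n → Fin n → K), ∀ (i j : Fin n) (h : i ≠ j),
    v i j ≠ 0 ∧ φ i ≠ 0 ∧
      (τ (SpecialLinearGroup.transvection h (k : ℤ))).val = 1 + vecMulVec (v i j) (φ i))

/-- **SU1**. Some power of all elementary matrices acts unipotently, and if it acts trivially then the image is finite.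

Proof. (1) Use the library: `gl_unip` (Pool/Graph/R_pool_sql_team_seeded_ab47071d/TH567/PR/Pos.lean):
if `a b = u b a` with `u` commuting with `a`, `b` then `(u^N - 1)^s = 0` for some `N ≠ 0`. With `a = τ(x_ip(1))`, `b = τ(x_pj(1))`, `u = τ(x_ij(1))`
(`p ≠ i, j`, `tv_comm` in `Gen.lean` there) we get `N_ij`; let `k` be the product of all `N_ij`; `u^k - 1` is a multiple of `u^{N_ij} - 1` (commuting), so nilpotent;
`x_ij(1)^k = x_ij(k)` (`tv_pow` in `Rep.lean`). (2) If `τ(x_ij(k)) = 1` for one pair `i ≠ j` then for all: if `τ(x_ij(k)) = 1`, then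
`τ(x_il(k)) = [τ(x_ij(k)), τ(x_jl(1))] = 1` and `τ(x_lj(k)) = [τ(x_li(1)), τ(x_ij(k))] = 1` for the `l ≠ i, j`, and with three indices one reaches all pairs.
(3) If all are `1` then `finite_range_of_kill` (`Kill.lean`) gives `Finite τ.range`. -/
def S_SU1 : Prop := ∀ (n : ℕ), 3 ≤ n → ∀ (K : Type) [Field K] [CharZero K] (τ : SZ n →* GL (Fin n) K),
  Finite τ.range ∨ ∃ k : ℕ, 1 ≤ k ∧
  (∀ (i j : Fin n) (h : i ≠ j), IsNilpotent ((τ (SpecialLinearGroup.transvection h (k : ℤ))).val - 1)) ∧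
  (∀ (i j : Fin n) (h : i ≠ j), τ (SpecialLinearGroup.transvection h (k : ℤ)) ≠ 1)

/-- **SU3**. Linear algebra: rank one Steinberg systems with a common image line are, up to conjugation, the elementary matrices.

Proof. Let `N_ij = v_i φ_ij` (`vecMulVec`), `T_ij = 1 + N_ij` for `i ≠ j`. `N_ij² = (φ_ij·v_i) N_ij`, and `N_ij` is nilpotent and nonzero, so `φ_ij·v_i = 0`, `N_ij² = 0`
and `T_ij^k = 1 + k N_ij`. Below `i, j, l` are distinct.
(1) `v_i`, `v_j` are linearly independent: otherwise `v_j` is a multiple of `v_i` and conversely, `N_ij N_jl = (φ_ij·v_j) v_i φ_jl = 0`,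
`N_jl N_ij = (φ_jl·v_i) v_j φ_ij = 0`, so `T_ij T_jl = T_jl T_ij`, so (third relation; all `T` are invertible) `1 + k N_il = 1`, a contradiction.
(2) `T_il T_jl = T_jl T_il` gives `(φ_il·v_j) v_i φ_jl = (φ_jl·v_i) v_j φ_il`, so by (1) (and `φ ≠ 0`) `φ_il·v_j = 0` and `φ_jl·v_i = 0`. So `φ_jl·v_i = 0` for all
`i ≠ l` (including `i = j`).
(3) The third relation, `T_ij T_jl = (1 + k N_il) T_jl T_ij`; by (2) `N_jl N_ij = (φ_jl·v_i) v_j φ_ij = 0`, `N_il N_jl = (φ_il·v_j) v_i φ_jl = 0`, `N_il N_ij = 0`. So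
`N_ij N_jl = k N_il`, i.e. `(φ_ij·v_j) φ_jl = k φ_il` (`v_i ≠ 0`). So `φ_ij·v_j ≠ 0`.
(4) `v_0, …, v_{n-1}` are linearly independent: apply `φ_jl` to `∑ a_i v_i = 0`: `a_l φ_jl·v_l = 0`. So a basis; let `v*_l` be the dual basis;
`φ_jl = μ_jl v*_l`, `μ_jl = φ_jl·v_l ≠ 0`, and (3) says `μ_ij μ_jl = k μ_il`. Put `a_ij = μ_ij / k`: `a_ij a_jl = a_il` for distinct `i,j,l`.
(5) Let `c_0 = 1`, `c_i = a_i0` for `i ≠ 0`. Then `a_ij = c_i / c_j` for all `i ≠ j`: for `i, j ≠ 0`: `a_ij a_j0 = a_i0`. For `j = 0` clear. For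
`i = 0`: `a_0j a_j0 = 1`: let `l ≠ 0, j`; `a_lj = a_l0 a_0j` and `a_lj a_j0 = a_l0`, so `a_l0 a_0j a_j0 = a_l0`.
(6) With `P` the matrix with columns `c_i v_i` (invertible): `N_ij = (c_i v_i) (μ_ij/c_i) v*_j = k (c_i v_i) (c_j⁻¹ v*_j) = P (k E_ij) P⁻¹`. -/
def S_SU3 : Prop := ∀ (n : ℕ), 3 ≤ n → ∀ (K : Type) [Field K] [CharZero K] (k : ℕ), 1 ≤ k →
  ∀ (T : Fin n → Fin n → Matrix (Fin n) (Fin n) K)
  (v : Fin n → Fin n → K) (φ : Fin n → Fin n → Fin n → K),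
  (∀ i j : Fin n, i ≠ j → v i ≠ 0 ∧ φ i j ≠ 0 ∧ T i j = 1 + vecMulVec (v i) (φ i j) ∧
    IsNilpotent (T i j - 1)) →
  (∀ i j a b : Fin n, i ≠ j → a ≠ b → j ≠ a → i ≠ b → T i j * T a b = T a b * T i j) →
  (∀ i j l : Fin n, i ≠ j → j ≠ l → i ≠ l → T i j * T j l = T i l ^ k * (T j l * T i j)) →
  ∃ P : GL (Fin n) K, ∀ i j : Fin n, i ≠ j → T i j = P.val * (1 + Matrix.single i j (k : K)) * (P⁻¹).val

/-- **SU4**. If `τ` agrees with a conjugate of the standard representation on the `x_ij(k)`, then everywhere.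

Proof. Replacing `τ` by `P⁻¹ τ P` we may assume `P = 1`. Let `a ≠ b`, `g = x_ab(1)`, `C = std(g)⁻¹ τ(g)`. For `i ≠ j` with `(i,j) ≠ (b,a)`,
`g x_ij(k) g⁻¹` is a product of elements `x_pq(±k)`: `= x_ij(k)` if `b ≠ i`, `a ≠ j`; `= x_aj(k) x_ij(k)` if `b = i`, `a ≠ j`; `= x_ib(-k) x_ij(k)` if `a = j`, `b ≠ i`.
So `τ(g) std(x_ij(k)) τ(g)⁻¹ = τ(g x_ij(k) g⁻¹) = std(g x_ij(k) g⁻¹) = std(g) std(x_ij(k)) std(g)⁻¹`, so `C` commutes with `1 + k E_ij`, so with `E_ij`.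
With `c ≠ a, b`: `C` commutes with `E_bc E_ca = E_ba` too. So `C` commutes with all `E_ij`, `i ≠ j`, and with `E_ii = E_ij E_ji`, so `C` is a scalar `λ_ab` (Mathlib:
`Matrix.mem_range_scalar_of_commute_single` or similar). So `τ(x_ab(1)) = λ_ab std(x_ab(1))` for all `a ≠ b`, with `λ_ab ≠ 0`; as
`x_ac(1) = [x_ab(1), x_bc(1)]` (`b` a third index), `τ(x_ac(1)) = std(x_ac(1))`. The `x_ab(1)` generate `SL_n(ℤ)`:
`closure_T` in `Pool/Graph/R_pool_sql_team_seeded_ab47071d/TH567/PR/Gen.lean` (`T ι` = all `x_ij(t)`). -/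
def S_SU4 : Prop := ∀ (n : ℕ), 3 ≤ n → ∀ (K : Type) [Field K] [CharZero K] (τ : SZ n →* GL (Fin n) K)
  (k : ℕ), 1 ≤ k → ∀ P : GL (Fin n) K,
  (∀ (i j : Fin n) (h : i ≠ j), τ (SpecialLinearGroup.transvection h (k : ℤ)) =
    P * std n K (SpecialLinearGroup.transvection h (k : ℤ)) * P⁻¹) →
  ∀ A : SZ n, τ A = P * std n K A * P⁻¹

/-- **SUPER** (hypotheses `S_SU1`, `S_SU2`, `S_SU3`, `S_SU4`).

Proof. By `S_SU1` we may assume that `k ≥ 1` is as there. By `S_SU2` we are in one of two cases.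
Case 1: apply `S_SU3` to `T i j = τ(x_ij(k))` (relations as in `S_SU2`) and `S_SU4`.
Case 2: apply case 1 to the representation `τ' A = τ(A⁻¹)ᵀ` (i.e. `τ ∘ …`, contragredient: `(τ' A).val = ((τ A)⁻¹).valᵀ`): `τ'(x_ij(k)) = (1 - v_ij φ_i)ᵀ = 1 + (-φ_i) v_ij`
(`vecMulVec (-φ i) (v i j)`; `(1 + N)⁻¹ = 1 - N` as `N² = 0`, because `N` is nilpotent of rank one), and it is again unipotent. So
`τ' A = P std(A) P⁻¹` for all `A`, i.e. `τ A = (P⁻¹)ᵀ dstd(A) Pᵀ`. -/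
def S_SUPER : Prop := ∀ (n : ℕ), 3 ≤ n → ∀ (K : Type) [Field K] [CharZero K] (τ : SZ n →* GL (Fin n) K),
  Finite τ.range ∨ (∃ P : GL (Fin n) K, ∀ A, τ A = P * std n K A * P⁻¹) ∨
    ∃ P : GL (Fin n) K, ∀ A, τ A = P * dstd n K A * P⁻¹

end Pool.Agent.H317.GR
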