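import Mathlib
import Pool.Agent.H317.GR.StmD

/-!
# Project GR, part A: characters and congruence quotients (statements, with complete paper proofs)

`Λ` is a finitely generated group with the same finite quotients as `SL_n(ℤ)`, `n ≥ 3`: `QLE Λ (SZ n)` and `QLE (SZ n) Λ`.
Library (fetch with `team-store fetch /workdir/pool PATH`):
* congruence subgroup property `Pool.Agent.TH610.CSP.csp : StCSP` in `Pool/Graph/R_pool_sql_team_seeded_ab47071d/TH610/CSP/Main.lean`:
  for `n ≥ 3` every subgroup `H` of finite index contains `{A | Cong M A}` for some `M > 0`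
  (`Cong M A := ∀ i j, M ∣ A.1 i j - 1 i j`);
* `Pool/Graph/R_pool_sql_team_seeded_ab47071d/Results/MP_a2a22c_al/CharacterCount.lean`, `FiniteCharacters.lean`;
* `fg_SL` (`SL_n(ℤ)` is finitely generated) in `Pool/Graph/R_pool_sql_team_seeded_ab47071d/TH567/PR/Rep.lean`.
-/

set_option autoImplicit false

namespace Pool.Agent.H317.GR

open Matrix Module

/-- every finite quotient of `G` is a quotient of `H` -/
def QLE (G H : Type) [Group G] [Group H] : Prop :=
  ∀ (Q : Type) [Group Q] [Finite Q],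
    (∃ f : G →* Q, Function.Surjective f) → ∃ f : H →* Q, Function.Surjective f

/-- the characters of degree `n` of `G` over `K` -/
def chars (G : Type) [Group G] (n : ℕ) (K : Type) [Field K] : Set (G → K) :=
  {χ | ∃ ρ : G →* GL (Fin n) K, ∀ g, χ g = (ρ g).val.trace}

/-- the characters of the representations with finite image -/
def finChars (G : Type) [Group G] (n : ℕ) (K : Type) [Field K] : Set (G → K) :=
  {χ | ∃ ρ : G →* GL (Fin n) K, Finite ρ.range ∧ ∀ g, χ g = (ρ g).val.trace}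

/-- absolute irreducibility, in terms of the trace form -/
def AI {G : Type} [Group G] {n : ℕ} {K : Type} [Field K] (ρ : G →* GL (Fin n) K) : Prop :=
  ∀ X : Matrix (Fin n) (Fin n) K, (∀ g, (X * (ρ g).val).trace = 0) → X = 0

/-- the image of `ρ` is dense in `SL_n(ℤ_p)` -/
def DenseP {G : Type} [Group G] {n p : ℕ} [Fact p.Prime]
    (ρ : G →* SpecialLinearGroup (Fin n) ℤ_[p]) : Prop :=
  ∀ (A : SZ n) (k : ℕ), ∃ g : G, ∀ i j : Fin n, (p : ℤ_[p]) ^ k ∣ (ρ g).val i j - (A.val i j : ℤ_[p])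

/-- `SL_n(ℤ_p) → GL_n(ℚ_p)` -/
noncomputable def toQ (n p : ℕ) [Fact p.Prime] :
    SpecialLinearGroup (Fin n) ℤ_[p] →* GL (Fin n) ℚ_[p] :=
  (SpecialLinearGroup.toGL).comp (SpecialLinearGroup.map (algebraMap ℤ_[p] ℚ_[p]))

/-- compatible homomorphisms to the congruence quotients -/
def Compat {G : Type} [Group G] {n : ℕ} (f : ∀ m : ℕ, G →* SpecialLinearGroup (Fin n) (ZMod m)) : Prop :=
  ∀ (m m' : ℕ) (h : m ∣ m'), 0 < m' → ∀ g : G,
    SpecialLinearGroup.map (ZMod.castHom h (ZMod m)) (f m' g) = f m g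

/-- **FIN**. Proof. `finChars G n K` is finite; choose finitely many `ρ_1, …, ρ_r` with finite image whose characters are all its elements. `N = ⋂ ker ρ_i` is a normal
subgroup of finite index; `Q = G ⧸ N` is a finite quotient of `G`, so there is a surjection `π : H → Q`. Each `ρ_i` factors through `Q`: `ρ_i = ρ̄_i ∘ mk`. The
map `χ_i ↦ tr (ρ̄_i ∘ π)` from `finChars G n K` to `finChars H n K` is injective since `mk` and `π` are surjective. -/
def S_FIN : Prop := ∀ (G H : Type) [Group G] [Group H], QLE G H → ∀ (n : ℕ) (K : Type) [Field K],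
  (finChars G n K).Finite → (finChars G n K).encard ≤ (finChars H n K).encard

/-- **SCH**. `SL_n(ℤ)` has exactly two characters of degree `n` not coming from finite images (hypothesis `S_SUPER`).

Proof. `χ_1 = tr std` and `χ_2 = tr dstd` are different: for `A = x_01(1) x_12(1) x_20(1)` (product of three elementary matrices, indices `0,1,2 : Fin n`),
`tr A = n + 1` and `tr A⁻¹ = n` (`dstd A = (A⁻¹)ᵀ`), and `K` has characteristic zero. They are not in `finChars`: characters of representations with finite image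
take finitely many values, but `tr (x_01(a) x_10(1)) = n + a`, and for `χ_2` use the images of these under `dl` (`dl` is an involution).
By `S_SUPER` a character `tr τ` is in `finChars` or equal to `χ_1` or `χ_2` (trace is conjugation invariant). -/
def S_SCH : Prop := ∀ (n : ℕ), 3 ≤ n → ∀ (K : Type) [Field K] [CharZero K],
  (chars (SZ n) n K \ finChars (SZ n) n K).encard = 2

/-- **CNT** (hypotheses `S_FIN`, `S_SCH`). `Λ` has exactly two characters of degree `n` not coming from finite images.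

Proof. By the library `CharacterCount.result` (applied to `Λ`): `(chars Λ n K).encard = (chars (SZ n) n K).encard`, and `FiniteCharacters.result`: both sets are finite (apply it to
`Λ` and to `SZ n`, which is finitely generated by `fg_SL`). By `S_FIN` in both directions `(finChars Λ n K).encard = (finChars (SZ n) n K).encard`. Subtract
(`finChars ⊆ chars`, everything finite). -/
def S_CNT : Prop := ∀ (n : ℕ), 3 ≤ n → ∀ (Λ : Type) [Group Λ] [Group.FG Λ],
  QLE Λ (SZ n) → QLE (SZ n) Λ → ∀ (K : Type) [Field K] [IsAlgClosed K] [CharZero K],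
  (chars Λ n K \ finChars Λ n K).encard = 2

/-- **HOM**. Proof. `Hom(G, Q)` is finite (`G` finitely generated), `N = ⋂ ker φ` over all `φ : G → Q` has finite index, so there is a surjection `π : H → G ⧸ N`.
`φ ↦ φ̄ ∘ π` is an injection `Hom(G, Q) → Hom(H, Q)` (`φ̄` the factorization of `φ` through `G ⧸ N`), and `Hom(H,Q)` is finite. -/
def S_HOM : Prop := ∀ (G H : Type) [Group G] [Group H] [Group.FG G] [Group.FG H], QLE G H →
  ∀ (Q : Type) [Group Q] [Finite Q], Nat.card (G →* Q) ≤ Nat.card (H →* Q)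

/-- **SRJ**. Reduction `SL_n(ℤ) → SL_n(ℤ/m)` is surjective.

Proof. It is enough that `SL_n(ℤ/m)` is generated by elementary matrices. `R = ℤ/m` is a finite ring. (1) If `a R + b R + … = R` (a unimodular column of length `≥ 2`), elementary
row operations bring it to `(1, 0, …, 0)`: if `a, b_2, …, b_n` is unimodular there are `c_i` with `u = a + ∑ c_i b_i` a unit (choose, by the Chinese remainder theorem, `c` modulo every prime `q ∣ m`:
if `q ∤ a` take all `c_i ≡ 0 mod q`; otherwise some `b_i` is not divisible by `q`, take this `c_i ≡ 1` and the others `≡ 0`), then clear the others, change a second entry to `1`, etc.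
See also the library: `exists_unit` / `t_SEM` in `Pool/Graph/R_seed8/W53/BQN/SEM.lean` (semilocal rings). (2) induction on `n`: the first column of `A ∈ SL_n(R)` is unimodular; after
row and column operations `A` is `1 ⊕ A'` with `A' ∈ SL_{n-1}(R)`; `SL_1 = 1`.
Alternatively lift `A` to an integer matrix, bring it by row and column operations over `ℤ` (Euclid) to diagonal form `diag(d_i)`, `∏ d_i ≡ 1 mod m`, and use that
`diag(u, u⁻¹)` is a product of elementary matrices over `ℤ/m`. -/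
def S_SRJ : Prop := ∀ (n m : ℕ), 0 < m →
  Function.Surjective (SpecialLinearGroup.map (n := Fin n) (Int.castRingHom (ZMod m)))

/-- **FAC** (hypotheses `S_HOM`, `S_SRJ`). Every finite quotient of `Λ` is a congruence quotient.

Proof. Let `N = ⋂_{φ : SZ n → Q} ker φ`; it has finite index (`SL_n(ℤ)` is finitely generated). By `csp` there is `M > 0` such that `Cong M A → A ∈ N`, i.e. the kernel of the reduction
`r : SL_n(ℤ) → SL_n(ℤ/M)` is contained in every `ker φ`. As `r` is surjective (`S_SRJ`), `Hom(SL_n(ℤ/M), Q) → Hom(SL_n(ℤ), Q)`, `θ ↦ θ ∘ r`, is a bijection. Let `f : Λ → SL_n(ℤ/M)`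
be surjective. `θ ↦ θ ∘ f` is an injection `Hom(SL_n(ℤ/M), Q) → Hom(Λ, Q)`; by `S_HOM` `|Hom(Λ,Q)| ≤ |Hom(SL_n(ℤ),Q)| = |Hom(SL_n(ℤ/M),Q)|`, so it is a bijection:
every `φ : Λ → Q` is of the form `θ ∘ f`, and `ker f ≤ ker φ`. -/
def S_FAC : Prop := ∀ (n : ℕ), 3 ≤ n → ∀ (Λ : Type) [Group Λ] [Group.FG Λ], QLE Λ (SZ n) →
  ∀ (Q : Type) [Group Q] [Finite Q], ∃ M : ℕ, 0 < M ∧
    ∀ f : Λ →* SpecialLinearGroup (Fin n) (ZMod M), Function.Surjective f →
    ∀ φ : Λ →* Q, f.ker ≤ φ.ker

/-- **LIM** (hypothesis `S_SRJ`). A compatible family of surjections to the congruence quotients.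

Proof. For every `m > 0` the finite group `SL_n(ℤ/m)` is a quotient of `SL_n(ℤ)` (`S_SRJ`), so of `Λ`. Let `X_k` be the set of surjective homomorphisms `Λ → SL_n(ℤ/k!)`; it is finite
(`Λ` finitely generated) and nonempty, and reduction gives maps `X_{k+1} → X_k` (the reduction `SL_n(ℤ/m') → SL_n(ℤ/m)` is surjective by `S_SRJ`). By König's lemma
(`nonempty_sections_of_finite_inverse_system`, or `exists_seq_covby...`, or compactness of the product) there is a compatible sequence `f'_k ∈ X_k`.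
For `m > 0` let `f m` be the reduction modulo `m` of `f'_m` (`m ∣ m!`); for `m = 0` take the trivial homomorphism. -/
def S_LIM : Prop := ∀ (n : ℕ) (Λ : Type) [Group Λ] [Group.FG Λ], QLE (SZ n) Λ →
  ∃ f : ∀ m : ℕ, Λ →* SpecialLinearGroup (Fin n) (ZMod m),
    (∀ m, 0 < m → Function.Surjective (f m)) ∧ Compat f

/-- **PAD** (hypothesis `S_SRJ` not needed). The limit over the powers of a prime.

Proof. For `g ∈ Λ` and `i j`, the entries `(f (p^k) g) i j ∈ ZMod (p^k)`, `k = 0, 1, …`, are compatible, so there is a unique `x ∈ ℤ_[p]` with `toZModPow k x` equal to them for all `k`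
(e.g. `R` = the subring of compatible sequences of `∏ ZMod (p^k)`, and `PadicInt.lift` applied to the projections `R → ZMod (p^k)` is a ring homomorphism `R → ℤ_[p]`
with `PadicInt.lift_spec`; apply `SpecialLinearGroup.map`). Uniqueness (`PadicInt.ext_of_toZModPow`) gives multiplicativity. If the `f (p^k)` are surjective, given `A` and `k` choose `g` with
`f (p^k) g = A mod p^k`; then `toZModPow k ((ρ g) i j - A i j) = 0`, so `p^k` divides it (`PadicInt.ker_toZModPow`). -/
def S_PAD : Prop := ∀ (n : ℕ) (Λ : Type) [Group Λ]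
  (f : ∀ m : ℕ, Λ →* SpecialLinearGroup (Fin n) (ZMod m)), Compat f →
  (∀ m, 0 < m → Function.Surjective (f m)) → ∀ (p : ℕ) [Fact p.Prime],
  ∃ ρ : Λ →* SpecialLinearGroup (Fin n) ℤ_[p], DenseP ρ ∧
    ∀ (k : ℕ) (g : Λ), SpecialLinearGroup.map (PadicInt.toZModPow k) (ρ g) = f (p ^ k) g

/-- **PAI**. Dense representations over `ℤ_p`: infinitely many traces, `tr ρ(g) ≠ tr ρ(g⁻¹)` for some `g`, absolute irreducibility, density of the dual.

Proof. (1) For `a ∈ ℤ` the matrix `x_01(a) x_10(1)` has trace `n + a`; so for every `k` the traces `tr ρ(g)` take all values modulo `p^k`; a finite set `S ⊆ ℤ_[p]` of size `s`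
does not meet all `p^k > s` classes. (2) Let `A = x_01(1) x_12(1) x_20(1)`: `tr A = n + 1`, `tr A⁻¹ = n`. Choose `g` with `ρ(g) ≡ A mod p`. Then `ρ(g⁻¹) = ρ(g)⁻¹ ≡ A⁻¹ mod p` (adjugates are congruent), so
`tr ρ(g) - tr ρ(g⁻¹) ≡ 1 mod p` is not zero. (3) Let `0 ≠ X ∈ M_n(ℚ_p)` with `tr(X ρ(g)) = 0` for all `g`; scale it so that all entries are in `ℤ_p`, and one of them is not divisible by `p` (divide by an entry of
maximal norm). For all `A ∈ SL_n(ℤ)`: `tr(X A) ≡ tr(X ρ(g)) = 0 mod p` for a suitable `g`. `A = 1` and `A = 1 + E_ij` (`i ≠ j`): `X_ji = tr(X E_ij) ≡ 0`.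
`A = (1+E_ij)(1+E_ji) = 1 + E_ij + E_ji + E_ii`: `X_ii ≡ 0 mod p`. A contradiction. (4) `dl A = (A⁻¹)ᵀ`: if `ρ(g) ≡ dl(A) mod p^k` then `dl(ρ(g)) ≡ A mod p^k`. -/
def S_PAI : Prop := ∀ (n : ℕ), 3 ≤ n → ∀ (p : ℕ) [Fact p.Prime] (Λ : Type) [Group Λ]
  (ρ : Λ →* SpecialLinearGroup (Fin n) ℤ_[p]), DenseP ρ →
  (Set.range fun g => (ρ g).val.trace).Infinite ∧ (∃ g, (ρ g).val.trace ≠ (ρ g⁻¹).val.trace) ∧
  AI ((toQ n p).comp ρ) ∧ DenseP ((dl n ℤ_[p]).comp ρ)

/-- **DSC**. Descent of representations to an algebraically closed subfield.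

Proof. `G` is generated by a finite set, closed under inverses. Let `A ⊆ K` be the `k`-subalgebra generated by the entries of the matrices of the generators and of their inverses; it is a finitely generated `k`-algebra,
and all `ρ g` and `ρ g⁻¹` have entries in `A`. By the Nullstellensatz (`A ≠ 0` is of finite type over the algebraically closed field `k`: a maximal ideal `𝔪` has `A ⧸ 𝔪 = k`) there is a
`k`-algebra homomorphism `θ : A → k`. Put `ρ'(g) = θ(ρ(g))` (entrywise). If `ρ g = 1` then `ρ' g = 1`; if `tr ρ(g) = algebraMap x` then `tr ρ'(g) = θ(tr ρ(g)) = x`. (Compare `Pool/Graph/R_pool_sql_team_seeded_ab47071d/TH520/PR/GLCount.lean`, `specialize`, and `fg_rep`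
in `TH567/PR`.) -/
def S_DSC : Prop := ∀ (k K : Type) [Field k] [Field K] [IsAlgClosed k] [Algebra k K]
  (G : Type) [Group G] [Group.FG G] (n : ℕ) (ρ : G →* GL (Fin n) K),
  ∃ ρ' : G →* GL (Fin n) k, (∀ g, ρ g = 1 → ρ' g = 1) ∧
    ∀ (g : G) (x : k), (ρ g).val.trace = algebraMap k K x → (ρ' g).val.trace = x

/-- **RAT**. An algebraic number with at most two conjugates all of whose images in all `ℚ̄_p` lie in `ℤ_p` is an integer.

Proof. (1) `a ∈ ℚ`: suppose not. The conjugates of `a` are the `α a`, all in `{a, b}`; so the minimal polynomial has degree 2 (separable, its roots are the `α a`), roots `a ≠ b`, `b = α a` for some `α`.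
So `s = a + b`, `q = a b ∈ ℚ`, `D = (a - b)² = s² - 4q ∈ ℚ`, `D` is not a square in `ℚ` (`a = (s ± √D)/2`). For every prime `p` choose `j : ℚ̄ → ℚ̄_p` (`IsAlgClosed.lift`); `j a` and
`j b = (j ∘ α) a` are in (the image of) `ℤ_p`. So `D = (j a - j b)²` is a square in `ℚ_p` for every `p`. Write `D = d c²` with `c ∈ ℚ^×` and `d` a squarefree integer. If a prime `p` divides `d`, `d` has
`p`-adic valuation one, so is not a square in `ℚ_p`. So `d = ± 1`. `-1` is not a square in `ℚ_3` (a square root would be in `ℤ_3`; `-1` is not a square modulo 3). So `d = 1` and `D` is a square, a contradiction.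
(2) `a = r ∈ ℚ`, and `r = j a ∈ ℤ_p` for every `p` (in `ℚ̄_p`, so in `ℚ_p`): its `p`-adic norm is at most one for all `p`, so `r ∈ ℤ`. -/
def S_RAT : Prop := ∀ a b : AlgebraicClosure ℚ,
  (∀ α : AlgebraicClosure ℚ ≃ₐ[ℚ] AlgebraicClosure ℚ, α a = a ∨ α a = b) →
  (∀ (p : ℕ) [Fact p.Prime] (j : AlgebraicClosure ℚ →+* AlgebraicClosure ℚ_[p]),
    ∃ x : ℤ_[p], j a = algebraMap ℚ_[p] (AlgebraicClosure ℚ_[p]) (x : ℚ_[p])) →
  ∃ z : ℤ, a = (z : AlgebraicClosure ℚ)

/-- **TRZ** (hypotheses `S_CNT`, `S_PAI`, `S_DSC`, `S_RAT`). The traces of the `p`-adic representations are integers, and independent of `p` up to duality.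

Proof. Let `𝔸 = AlgebraicClosure ℚ`, `K_p = AlgebraicClosure ℚ_[p]`, and `X(K) = chars Λ n K \ finChars Λ n K`, a set with two elements for `K = 𝔸, K_p` (`S_CNT`).
(1) Let `χ_p(g) = tr ρ_p(g) ∈ K_p`, `χ'_p(g) = χ_p(g⁻¹)`, the trace of `g ↦ dl(ρ_p(g))`. Both are in `chars`, and they are not in `finChars`, since the elements of `finChars` take finitely many values, but `χ_p`
takes infinitely many (`S_PAI`; `ℤ_[p] → K_p` is injective). They are different (`S_PAI`). So `X(K_p) = {χ_p, χ'_p}`.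
(2) If `j : 𝔸 → K_p` is a ring homomorphism and `ψ ∈ X(𝔸)`, then `j ∘ ψ ∈ X(K_p)`: it is in `chars` (apply `j` to the matrices). Suppose `j ∘ ψ = tr ρ'`, `ρ'` with finite image. By `S_DSC` (`k = 𝔸`, `K = K_p`, algebra structure
`j.toAlgebra`) there is `ρ'' : Λ → GL_n(𝔸)` with `ker ρ' ≤ ker ρ''` and `tr ρ'' = ψ`. Then `ρ''` has finite image, so `ψ ∈ finChars`, a contradiction.
(3) Let `X(𝔸) = {ψ_1, ψ_2}`. For `α ∈ Gal(𝔸/ℚ)`, `α ∘ ψ_1 ∈ X(𝔸)` (apply `α` to matrices; if `α ∘ ψ_1` is in `finChars`, so is `ψ_1 = α⁻¹ ∘ α ∘ ψ_1`). So `α(ψ_1(g)) ∈ {ψ_1(g), ψ_2(g)}`. For every `p` and `j`,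
`j ∘ ψ_1 ∈ {χ_p, χ'_p}`, so `j(ψ_1(g))` is in the image of `ℤ_[p]`. By `S_RAT` (`a = ψ_1(g)`, `b = ψ_2(g)`) `ψ_1(g) = ψ(g) ∈ ℤ`.
(4) For every `p` there is a `j` (`IsAlgClosed.lift`, `𝔸/ℚ` is algebraic); `j ∘ ψ_1 = χ_p` or `χ'_p`, i.e. `ψ(g) = tr ρ_p(g)` for all `g`, or `ψ(g) = tr ρ_p(g⁻¹)` for all `g`. -/
def S_TRZ : Prop := ∀ (n : ℕ), 3 ≤ n → ∀ (Λ : Type) [Group Λ] [Group.FG Λ],
  QLE Λ (SZ n) → QLE (SZ n) Λ →
  ∀ (ρ : ∀ (p : ℕ) [Fact p.Prime], Λ →* SpecialLinearGroup (Fin n) ℤ_[p]),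
  (∀ (p : ℕ) [Fact p.Prime], DenseP (ρ p)) →
  ∃ ψ : Λ → ℤ, ∀ (p : ℕ) [Fact p.Prime],
    (∀ g, (ρ p g).val.trace = (ψ g : ℤ_[p])) ∨ (∀ g, (ρ p g).val.trace = (ψ g⁻¹ : ℤ_[p]))

end Pool.Agent.H317.GR
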