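import Mathlib

/-!
# Project GR, part C: nilpotent linear groups (statements, with complete paper proofs)

Goal of part C: `S_NILP`.  Everything here is self-contained (only Mathlib).
Conventions: `lowerCentralSeries G k` in the docstrings means `(⊤ : Subgroup G).lowerCentralSeries k` (Mathlib: `k = 0` is everything,
so it is `γ_{k+1}`),
`⁅a, b⁆ = a * b * a⁻¹ * b⁻¹`.
-/

set_option autoImplicit false

namespace Pool.Agent.H317.GR

open Matrix Module
open scoped commutatorElement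

/-- left-normed commutators `LC x k = [x_0, x_1, …, x_k]` (weight `k + 1`) -/
def LC {G : Type} [Group G] (x : ℕ → G) : ℕ → G
  | 0 => x 0
  | (k + 1) => ⁅LC x k, x (k + 1)⁆

/-- A full flag of `V` which is stable under the operators `ρ g`, `g ∈ S`, all of which act by scalars on
the quotients. (`F i = ⊤` for `i ≥ finrank V` follows from the dimension.) -/
def TriFlag {K V G : Type} [Field K] [AddCommGroup V] [Module K V] [Group G]
    (ρ : G →* Module.End K V) (S : Set G) (F : ℕ → Submodule K V) : Prop :=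
  Monotone F ∧ (∀ i, i ≤ finrank K V → finrank K (F i) = i) ∧ F (finrank K V) = ⊤ ∧
    ∀ g ∈ S, ∀ i, ∃ c : K, ∀ v ∈ F (i + 1), ρ g v - c • v ∈ F i

/-- **EXP**. A nilpotent group whose centre has finite exponent has finite exponent.

Proof. Let `Z_i = upperCentralSeries G i`, `Z_c = ⊤`. Claim: `∀ i, ∀ z ∈ Z_{i+1}, z ^ e ∈ Z_i`.
`i = 0` is the hypothesis (`Z_1` is the centre, `Z_0 = ⊥`). Step: let `z ∈ Z_{i+2}`, `g ∈ G`. Then `c = ⁅z,g⁆ ∈ Z_{i+1}`,
so `c` commutes with everything modulo `Z_i`, and by induction on `s`: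
`⁅z^s, g⁆ ≡ c^s mod Z_i` (as `⁅z^{s+1}, g⁆ = z^s ⁅z,g⁆ z^{-s} ⁅z^s,g⁆`).
Hence `⁅z^e, g⁆ ≡ c^e mod Z_i`, and `c^e ∈ Z_i` by the claim for `i`. So `⁅z^e,g⁆ ∈ Z_i` for all `g`, i.e.
`z^e ∈ Z_{i+1}`. (Convenient: work in `G ⧸ Z_i`.) So `g^(e^c) = 1` for all `g`. -/
def S_EXP : Prop := ∀ (G : Type) [Group G] [Group.IsNilpotent G] (e : ℕ), 0 < e →
  (∀ z ∈ Subgroup.center G, z ^ e = 1) → ∃ E : ℕ, 0 < E ∧ ∀ g : G, g ^ E = 1

/-- **IRR** (use `S_EXP` as a hypothesis). In an irreducible representation of a nilpotent group some power of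
every element is a scalar.

Proof. Let `d = finrank K V ≥ 1` and `C = {g | ρ g is a scalar}`, a normal subgroup of `N`
(kernel of the map to `PGL`; or direct). (1) Schur: if `ρ z` commutes with all `ρ g` then `ρ z` is a scalar: it has an eigenvalue
(`K` algebraically closed, `V ≠ 0`), the eigenspace is invariant under all `ρ g` and nonzero, hence `⊤`.
(2) Let `z ∈ N` be such that its class in `N ⧸ C` is central. For `g ∈ N`, `⁅z,g⁆ ∈ C`, so `ρ ⁅z,g⁆ = c • 1`, and
`c^d = det (ρ ⁅z,g⁆) = 1` (commutator). So `ρ z ρ g = c ρ g ρ z` and `ρ(z)^d ρ(g) = c^d ρ(g) ρ(z)^d = ρ(g) ρ(z)^d`. By (1)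
`z^d ∈ C`. (3) So the centre of the nilpotent group `N ⧸ C` has exponent dividing `d`; by `S_EXP` there is `E > 0` with
`g^E ∈ C` for all `g`. -/
def S_IRR : Prop := ∀ (K V N : Type) [Field K] [IsAlgClosed K] [AddCommGroup V] [Module K V]
  [FiniteDimensional K V] [Nontrivial V] [Group N] [Group.IsNilpotent N] (ρ : N →* Module.End K V),
  (∀ W : Submodule K V, (∀ g, ∀ v ∈ W, ρ g v ∈ W) → W = ⊥ ∨ W = ⊤) →
  ∃ E : ℕ, 0 < E ∧ ∀ g, ∃ c : K, ρ g ^ E = c • 1

/-- **TRI** (use `S_IRR` as a hypothesis). The `k`-th powers of the elements of a nilpotent linear group (over an algebraically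
closed field) have a common full flag, for some `k > 0`.

Proof. Induction on `d = finrank K V`. `d = 0`: `F = fun _ => ⊤` (`= ⊥`), `k = 1`. `d > 0`: choose an invariant subspace `W ≠ ⊥` of
minimal dimension `e`; it is irreducible, so by `S_IRR` (for `N` acting on `W`) there is `E` with `ρ(g)^E` scalar on `W`
for all `g`. By induction applied to `V ⧸ W` (dimension `d - e < d`) there are `k'` and a flag `F'` of `V ⧸ W`. Put `k = E k'`.
Take `F i`, for `i ≤ e`, to be any full flag of `W` (span of the first `i` vectors of a basis of `W`), and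
`F i = comap (mkQ W) (F' (i - e))` for `i > e`. Every `ρ(g)^k` acts by scalars on `W`, and `(ρ(g)^{k'})^E` acts by
scalars on the quotients of `F'`
(if `(a - c) F'(i+1) ≤ F' i` then `(a^E - c^E) F'(i+1) ≤ F' i`). -/
def S_TRI : Prop := ∀ (K V N : Type) [Field K] [IsAlgClosed K] [AddCommGroup V] [Module K V]
  [FiniteDimensional K V] [Group N] [Group.IsNilpotent N] (ρ : N →* Module.End K V),
  ∃ k : ℕ, 0 < k ∧ ∃ F : ℕ → Submodule K V, TriFlag ρ (Set.range fun g : N => g ^ k) F

/-- **CLO**. If the operators in `S` act by scalars on the quotients of a flag, so do those of the subgroup generated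
by `S`.

Proof. For `i ≥ finrank V`, `F i = ⊤` and there is nothing to prove (`c = 0`, `F i = ⊤`).
Let `i < finrank V`. If `(ρ g - a) F(j+1) ≤ F j` and `(ρ h - b) F(j+1) ≤ F j` for all `j` (with scalars depending on `j`) then
each `ρ g` preserves every `F j` (`F j ≤ F (j+1)` and `F 0 = ⊥`), and `ρ(gh) - ab = ρ g (ρ h - b) + b (ρ g - a)` maps `F(i+1)` to `F i`.
Inverses: `ρ g` is injective and maps `F j` to `F j`, so onto by dimension; on `F(i+1)/F i` (nonzero) it is the scalar `a ≠ 0`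
(injectivity on the quotient: `ρ g` maps `F i` onto `F i`; if `a = 0` then `ρ g` maps `F(i+1)` into `F i`, contradicting
injectivity and dimensions), and `ρ(g⁻¹) v - a⁻¹ v = - a⁻¹ ρ(g⁻¹) (ρ g v - a v) ∈ F i`. -/
def S_CLO : Prop := ∀ (K V N : Type) [Field K] [AddCommGroup V] [Module K V]
  [FiniteDimensional K V] [Group N] (ρ : N →* Module.End K V) (S : Set N) (F : ℕ → Submodule K V),
  TriFlag ρ S F → TriFlag ρ (Subgroup.closure S : Set N) F

/-- **GEN**. In a triangular nilpotent group the generalised eigenspaces of every element are stable under the group.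

Proof. Let `W_l(z) = (ρ z).maxGenEigenspace l`, `Z_j = upperCentralSeries G j`, `d = finrank V`. Claim: for all `j`, `y ∈ Z_j`
and all `z ∈ G`, `l : K`: `ρ y` maps `W_l(z)` into itself. `j = 0`: `y = 1`. Step: let `y ∈ Z_{j+1}`, and
`c = z⁻¹ y z y⁻¹ ∈ Z_j`, so that `y z y⁻¹ = z c`. (1) `ρ y (W_l(z)) = W_l(y z y⁻¹) = W_l(z c)`.
(2) `W := W_l(z)` is stable under `ρ z`, and under `ρ c` by the induction hypothesis, so under `ρ (z c)`. Consider the subspaces
`F i ⊓ W`. Let `a_i(g)` be a scalar with `(ρ g - a_i(g)) F(i+1) ≤ F i`. For `i < d` these scalars are unique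
(`F i ≠ F(i+1)`) and multiplicative in `g`, nonzero, so `a_i(z c) = a_i(y z y⁻¹) = a_i(z)`. If `F i ⊓ W ≠ F(i+1) ⊓ W`, take `v` in the
right side but not in the left: `ρ z v - a_i(z) v ∈ F i ⊓ W`, and by induction `(ρ z)^m v - a_i(z)^m v ∈ F i`, more generally
`p(ρ z) v - p(a_i(z)) v ∈ F i` for every polynomial `p`; with `p = (X - l)^d`, which kills `v`: `(a_i(z) - l)^d v ∈ F i`,
so `a_i(z) = l`. Hence `(ρ(z c) - l)` maps `F(i+1) ⊓ W` to `F i ⊓ W` for all `i < d`, so `(ρ (z c) - l)^d` kills `W`, i.e.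
`W_l(z) ≤ W_l(z c)`. (3) By (1), (2): `W_l(z) ≤ W_l(z c) = ρ y (W_l(z))`, and the dimensions are equal (`ρ y` is injective), so
`ρ y (W_l(z)) = W_l(z)`. As `G` is nilpotent, `Z_j = ⊤` for some `j`. -/
def S_GEN : Prop := ∀ (K V G : Type) [Field K] [AddCommGroup V] [Module K V]
  [FiniteDimensional K V] [Group G] [Group.IsNilpotent G] (ρ : G →* Module.End K V)
  (F : ℕ → Submodule K V), TriFlag ρ Set.univ F →
  ∀ (z y : G) (l : K), ∀ v ∈ (ρ z).maxGenEigenspace l, ρ y v ∈ (ρ z).maxGenEigenspace l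

/-- **UNI**. Commutators of operators which are 'scalar times unipotent' for a flag.

Proof. For an invertible operator `A` write `A ∈ U_r` if `(A - 1) v ∈ F (j - r)` for all `j` and `v ∈ F j` (truncated
subtraction; `F 0 = ⊥`). (1) If `A ∈ U_r`, `B ∈ U_s`, `r, s ≥ 1`, then `⁅A,B⁆ ∈ U_{r+s}`: `A`, `B` and their inverses preserve every
`F j` (finite dimension), `AB - BA = (A-1)(B-1) - (B-1)(A-1)` maps `F j` to `F (j-(r+s))`, and `⁅A,B⁆ - 1 = (AB - BA) A⁻¹ B⁻¹`.
(2) `ρ(x_i) = c(x_i) A_i` with `A_i ∈ U_1` (`F (j+1) → F j`, and `F 0 = ⊥`), `c(x_i) ≠ 0` (if `V ≠ 0`: otherwise `ρ(x_i)` would be nilpotent;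
if `V = 0` everything is trivial). A commutator does not change if the entries are multiplied by scalars. So by induction
`ρ (LC x m) ∈ U_{m+1}` for `m ≥ 1`. -/
def S_UNI : Prop := ∀ (K V G : Type) [Field K] [AddCommGroup V] [Module K V]
  [FiniteDimensional K V] [Group G] (ρ : G →* Module.End K V)
  (F : ℕ → Submodule K V), Monotone F → F 0 = ⊥ → F (finrank K V) = ⊤ →
  (∀ g : G, ∃ c : K, ∀ i, ∀ v ∈ F (i + 1), ρ g v - c • v ∈ F i) →
  ∀ (x : ℕ → G) (m : ℕ), 1 ≤ m → ∀ j, ∀ v ∈ F j, ρ (LC x m) v - v ∈ F (j - (m + 1))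

/-- **MUL**. Multilinearity of the last commutator in a nilpotent group.

Proof. Write `L_j = lowerCentralSeries G j` (normal, `⁅L_j, G⁆ = L_{j+1}`; `L_j/L_{j+1}` is central in `G/L_{j+1}`). Claim: for `j ≤ m`
`LC (x^k) j = (LC x j)^(k^(j+1)) * u` with `u ∈ L_{j+1}`. `j = 0`: clear. Step: let `a = LC x j ∈ L_j`, `b = x_{j+1}`, `r = k^(j+1)`.
Modulo `L_{j+2}`: for `a' = a^r u` with `u ∈ L_{j+1}`, `⁅a^r u, b^k⁆ = a^r ⁅u,b^k⁆ a^{-r} ⁅a^r,b^k⁆ ≡ ⁅a^r, b^k⁆` and
`⁅a,b⁆ ∈ L_{j+1}` is central modulo `L_{j+2}`, so `⁅a^r, b^k⁆ ≡ ⁅a,b⁆^{r k}` (induction on `r`, `k`; in the quotient group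
`G/L_{j+2}` the commutator `⁅a,b⁆` is central). At `j = m`: `L_{m+1} = ⊥`. -/
def S_MUL : Prop := ∀ (G : Type) [Group G] (m : ℕ), (⊤ : Subgroup G).lowerCentralSeries (m + 1) = ⊥ →
  ∀ (x : ℕ → G) (k : ℕ), LC (fun i => x i ^ k) m = LC x m ^ (k ^ (m + 1))

/-- **GNC**. If all left-normed commutators of weight `m + 1` have finite order in a group with
`lowerCentralSeries N (m+1) = ⊥`, then all elements of `lowerCentralSeries N m` have finite order.

Proof. (1) In any group, `lowerCentralSeries N j = normalClosure {LC x j | x}`: `≥` is an easy induction (`LC x j ∈ L_j`).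
`≤`: induction on `j`; `j = 0` trivial. `L_{j+1}` is generated by `⁅a,b⁆`, `a ∈ L_j`, `b ∈ N`; let `M = normalClosure {LC x (j+1)}`. For
every `x` and `b`, `⁅LC x j, b⁆ = LC x' (j+1) ∈ M` (`x'` agrees with `x` up to `j`, `x' (j+1) = b`), so `LC x j` is central modulo `M`, hence
every element of `L_j = normalClosure {LC x j}` is central modulo `M` (the preimage of the centre of `N/M` is normal and contains them), so
`⁅a,b⁆ ∈ M`. (2) For `j = m`: `L_{m+1} = ⊥` says that `L_m` is central; so the set of elements of finite order of `L_m` is a subgroup,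
normal in `N` (it is central), and contains all `LC x m`. -/
def S_GNC : Prop := ∀ (N : Type) [Group N] (m : ℕ), (⊤ : Subgroup N).lowerCentralSeries (m + 1) = ⊥ →
  (∀ x : ℕ → N, IsOfFinOrder (LC x m)) → ∀ c ∈ (⊤ : Subgroup N).lowerCentralSeries m, IsOfFinOrder c

/-- **NPD** (hypotheses `S_TRI`, `S_CLO`, `S_GEN`, `S_UNI`, `S_MUL`). In dimension at most `m + 1` the commutators of weight
`m + 1 ≥ 2` of a nilpotent group of class at most `m + 1` act with finite order.

Proof. Strong induction on `d = finrank V`, for all `N`. `d = 0` trivial. Choose `k, F` by `S_TRI`; let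
`N' = Subgroup.closure {g^k}` (as a group of its own; it is nilpotent, and `lowerCentralSeries N' (m+1) = ⊥`), acting on `V` by restriction
`ρ'`. By `S_CLO` all elements of `N'` act by scalars on the quotients of `F`. Let `y i = x i ^ k ∈ N'`. By `S_MUL`
`LC y m = (LC x m)^(k^(m+1))` (as elements of `N`), so it is enough to find `E > 0` with `ρ(LC y m)^E = 1`.
Case A: some `z ∈ N'` has two different eigenvalues. Let `l` run over the (finitely many) eigenvalues of `ρ z`;
`V = ⊕_l W_l`, `W_l = maxGenEigenspace l` (needs all eigenvalues in `K`: `K` is algebraically closed,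
`Module.End.iSup_maxGenEigenspace_eq_top`), each `W_l` is `N'`-stable (`S_GEN`) and `≠ ⊤`, so of dimension `< d`. By induction there is
`E_l > 0` with `ρ(LC y m)^{E_l} = 1` on `W_l`. Let `E = ∏ E_l`.
Case B: every `z ∈ N'` has only one eigenvalue `c(z)`. Then the scalar by which `z` acts on each quotient `F(i+1)/F i`, `i < d`, is an
eigenvalue of `ρ z`, so equal to `c(z)` (a triangular operator: if `(ρ z - a)F(i+1) ≤ F i` then `ρ z - a` is not injective on
`F(i+1)`, as `dim F i < dim F (i+1)`). So `S_UNI` applies, and for `v ∈ V = F d`: `ρ(LC y m) v - v ∈ F (d - (m+1)) = F 0 = ⊥`. -/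
def S_NPD : Prop := ∀ (K : Type) [Field K] [IsAlgClosed K] (m : ℕ), 1 ≤ m →
  ∀ (V N : Type) [AddCommGroup V] [Module K V] [FiniteDimensional K V] [Group N]
  (ρ : N →* Module.End K V), (⊤ : Subgroup N).lowerCentralSeries (m + 1) = ⊥ → finrank K V ≤ m + 1 →
  ∀ x : ℕ → N, ∃ E : ℕ, 0 < E ∧ ρ (LC x m) ^ E = 1

/-- **NILP** (hypotheses `S_TRI`, `S_CLO`, `S_GEN`, `S_UNI`, `S_MUL`, `S_NPD`). In dimension `n = m + 2 ≥ 3`, a commutator of weight
`n - 1` of a nilpotent group of class at most `n - 1` has a power which is `1` or of the form `1 + v φ`.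

Proof. As in `S_NPD` with `V = Fin n → K` (`ρ g` acts by `Matrix.mulVec`, `Matrix.toLin'`): choose `k, F`, `N'`, `y`. Case A (some `z ∈ N'` with at
least two eigenvalues): the `W_l` have dimension at most `n - 1 = m + 1`, so `S_NPD` applies to `N'` on each `W_l`, and `ρ(LC y m)^E = 1`.
Case B: by `S_UNI` `A := ρ(LC y m) - 1` maps `V = F n` into `F (n - (m+1)) = F 1` and `F (n-1)` into `F 0 = ⊥`. As `dim F 1 = 1`,
`A` is a matrix with all columns in a line `K v`, so `A = vecMulVec v φ`. If `A = 0` we are in the first case,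
otherwise `v, φ ≠ 0`. The exponent is `k^(m+1) E` resp. `k^(m+1)` (`S_MUL`). -/
def S_NILP : Prop := ∀ (K : Type) [Field K] [IsAlgClosed K] (m : ℕ), 1 ≤ m →
  ∀ (N : Type) [Group N] (ρ : N →* GL (Fin (m + 2)) K), (⊤ : Subgroup N).lowerCentralSeries (m + 1) = ⊥ →
  ∀ x : ℕ → N, ∃ E : ℕ, 0 < E ∧ (ρ (LC x m) ^ E = 1 ∨
    ∃ v φ : Fin (m + 2) → K, v ≠ 0 ∧ φ ≠ 0 ∧ (ρ (LC x m) ^ E).val = 1 + vecMulVec v φ)

end Pool.Agent.H317.GR
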