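import Mathlib
import Pool.Agent.H317.GR.StmA
import Pool.Agent.H317.GR.StmC

/-!
# Project GR, part B: integral structure, density, and the final theorem (statements, with complete paper proofs)
-/

set_option autoImplicit false

namespace Pool.Agent.H317.GR

open Matrix Module
open scoped commutatorElement

/-- density in the profinite topology of `SL_n(ℤ)` -/
def PDense {n : ℕ} (H : Subgroup (SZ n)) : Prop :=
  ∀ (Q : Type) [Group Q] [Finite Q] (f : SZ n →* Q) (g : SZ n), ∃ h ∈ H, f h = f g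

/-- **AIE**. Absolute irreducibility (in the trace form sense) is preserved by field extensions.

Proof. The span of the `ρ g` is `M_n(K)`: otherwise a nonzero linear functional vanishes on it, and every linear functional on `M_n(K)` is `Y ↦ tr(X Y)`. So every matrix
unit `E_ij` is a `K`-linear combination of matrices `ρ g`. If `X` over `L` satisfies `tr(X ρ(g)) = 0` for all `g` then `X_ji = tr(X E_ij) = 0`. -/
def S_AIE : Prop := ∀ (K L : Type) [Field K] [Field L] (j : K →+* L) (G : Type) [Group G] (n : ℕ)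
  (ρ : G →* GL (Fin n) K), AI ρ → AI ((GeneralLinearGroup.map j).comp ρ)

/-- **CNJ**. An absolutely irreducible representation is determined by its character, among all representations of the same degree.

Proof. As in `S_AIE` the span of the `ρ g` is `M_n(K)`. Let `a : G → K` be finitely supported, `ρ(a) = ∑ a_g ρ(g)`, `σ(a)` similarly. If `σ(a) = 0` then `tr(ρ(a) ρ(h)) = ∑ a_g tr ρ(g h) = tr(σ(a) σ(h)) = 0` for
all `h`, so `ρ(a) = 0`. So there is a well defined surjective linear map from the span `S` of the `σ g` to `M_n(K)`, `σ(a) ↦ ρ(a)`; by dimension `S = M_n(K)` and the map is bijective. Let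
`Θ : M_n(K) → M_n(K)` be its inverse, `Θ(ρ(a)) = σ(a)`; it is multiplicative (check on products of `ρ g`, bilinearity) and `Θ 1 = 1`, and `Θ` is injective. If `n = 0` take `P = 1`. Otherwise `Θ(E_00) ≠ 0`; choose `w` with `Θ(E_00) w ≠ 0` and let
`P` be the matrix with columns `P e_i = Θ(E_i0) w`. Then `P (X e_i) = ∑_j X_ji Θ(E_j0) w = Θ(X E_i0) w = Θ(X) (P e_i)`, so `P X = Θ(X) P` for all `X`; `P ≠ 0`. The kernel of `P` is stable under all
`X ∈ M_n(K)`, and not everything, so zero, and `P` is invertible. With `X = ρ g`: `P ρ(g) = σ(g) P`. -/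
def S_CNJ : Prop := ∀ (K : Type) [Field K] (G : Type) [Group G] (n : ℕ)
  (ρ σ : G →* GL (Fin n) K), AI ρ → (∀ g, (ρ g).val.trace = (σ g).val.trace) →
  ∃ P : GL (Fin n) K, ∀ g, σ g * P = P * ρ g

/-- **LAT**. An absolutely irreducible representation with integral traces and an element with `ρ(t) - 1` of rank one is integral.

Proof. For `g ∈ G` let `m_g : G → ℤ`, `m_g(h) = ψ(h g t) - ψ(h g)`. In `K`: `m_g(h) = tr(ρ(h g)(ρ(t) - 1)) = tr(ρ(h) ρ(g) v φ) = φ ρ(h) ρ(g) v`. For `w ∈ K^n` let `e(w) : G → K`, `e(w)(h) = φ · ρ(h) w`; `e` is linear and injective: if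
`φ ρ(h) w = 0` for all `h` then `tr((w φ) ρ(h)) = 0` for all `h`, so `w φ = 0`, `w = 0` (as `φ ≠ 0`). `m_g = e(ρ(g) v)` (after `ℤ → K`). Let `M ⊆ (G → ℤ)` be the subgroup generated by the `m_g`. The vectors `ρ(g) v` span `K^n`: otherwise some `χ ≠ 0` has `χ ρ(g) v = 0` for all
`g`, `tr((v χ) ρ(g)) = 0`, so `v χ = 0`. Similarly the covectors `φ ρ(h)` span the dual, so there are `h_1, …, h_n` with `φ ρ(h_i)` a basis. The map `ev : M → ℤ^n`, `m ↦ (m(h_i))_i`, is injective: `m` maps to some `e(w)` (`M` is generated by such), and `φ ρ(h_i) w = 0` for all `i`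
gives `w = 0`. So `M` is a free `ℤ`-module of finite rank `r ≤ n` (submodule of `ℤ^n`). Let `b_1, …, b_r` be a basis, `b_j = e(w_j)`. The `w_j` span `K^n` (all `ρ(g) v` are integral combinations of them), so `r ≥ n`, so `r = n` and
the `w_j` are a basis of `K^n`. `G` acts on `M` by `(u m)(h) = m(h u)`: `u m_g = m_{u g}`, and `e(w)(h u) = e(ρ(u) w)(h)`. Let `σ(u) ∈ GL_n(ℤ)` be the matrix of `u` in the basis `b`: `u b_j = ∑ σ(u)_ij b_i`, so `ρ(u) w_j = ∑ σ(u)_ij w_i`. With `Q` the matrix with columns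
`w_j`: `ρ(u) Q = Q σ(u)`; `P = Q⁻¹`. -/
def S_LAT : Prop := ∀ (K : Type) [Field K] [CharZero K] (G : Type) [Group G] (n : ℕ)
  (ρ : G →* GL (Fin n) K) (ψ : G → ℤ), AI ρ → (∀ g, (ρ g).val.trace = (ψ g : K)) →
  ∀ (t : G) (v φ : Fin n → K), v ≠ 0 → φ ≠ 0 → (ρ t).val = 1 + vecMulVec v φ →
  ∃ (σ : G →* GL (Fin n) ℤ) (P : GL (Fin n) K),
    ∀ g, GeneralLinearGroup.map (Int.castRingHom K) (σ g) * P = P * ρ g

/-- **ING**. Integrality of the intertwining matrix.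

Proof. Multiply `P` by a nonzero scalar such that all entries are in `ℤ_[p]` and one entry is not divisible by `p` (divide by an entry of maximal norm). Let `P̄ ≠ 0` be its reduction modulo `p` (`PadicInt.toZMod`).
`σ(g) P = P ρ(g)` holds over `ℤ_[p]` (injectivity of `ℤ_[p] → ℚ_[p]`), so modulo `p`. Let `w ∈ 𝔽_p^n` be in the kernel of `P̄`: `P̄ ρ(g) w = σ(g) P̄ w = 0`. As `ρ(Λ)` modulo `p` contains all `A ∈ SL_n(ℤ)` modulo `p` (`DenseP`, `k = 1`), the kernel is stable under `1 + E_ij`, so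
under `E_ij`, for `i ≠ j`. If the kernel contains `w ≠ 0`, `w_j ≠ 0`, then it contains `E_ij w = w_j e_i` for `i ≠ j`, so (`n ≥ 2`) all `e_i` (`e_j = E_ji e_i`); then `P̄ = 0`, a contradiction. So `P̄` is invertible (`𝔽_p` is a field), `det P` is a unit of
`ℤ_[p]`, and `T = P` works. -/
def S_ING : Prop := ∀ (n : ℕ), 2 ≤ n → ∀ (p : ℕ) [Fact p.Prime] (Λ : Type) [Group Λ]
  (ρ : Λ →* SpecialLinearGroup (Fin n) ℤ_[p]) (σ : Λ →* GL (Fin n) ℤ), DenseP ρ →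
  ∀ P : GL (Fin n) ℚ_[p],
    (∀ g, GeneralLinearGroup.map (Int.castRingHom ℚ_[p]) (σ g) * P = P * toQ n p (ρ g)) →
  ∃ T : GL (Fin n) ℤ_[p],
    ∀ g, GeneralLinearGroup.map (Int.castRingHom ℤ_[p]) (σ g) * T = T * SpecialLinearGroup.toGL (ρ g)

/-- **MOD**. Determinant one, and congruences.

Proof. Let `p` be a prime, `T` as in the hypothesis. `det σ(g) = det ρ(g) = 1` in `ℤ_[p]`, so in `ℤ` (characteristic zero). So `σ' g = ⟨σ g, _⟩`. Fix `k`: `σ(g) = T ρ(g) T⁻¹`, so modulo `p^k` `σ(g)` is the identity matrix if and only if `ρ(g)` is, if and only if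
`f (p^k) g = 1`. (`ℤ → ℤ_[p] → ZMod (p^k)` is the reduction.) For general `m > 0`: `σ'(g) ≡ 1 mod m` if and only if `σ'(g) ≡ 1 mod p^k` for all prime powers `p^k` dividing `m`, and by `Compat`
`f m g = 1` if and only if `f (p^k) g = 1` for all prime powers `p^k ∣ m`: (`→`) reduction; (`←`) an element of `ZMod m` is zero if its reductions modulo all prime powers `p^k ∣ m` are zero (Chinese remainder theorem; or
`Nat.eq_one_of…`/induction `Nat.recOnPosPrimePosCoprime`: for coprime `a, b`, `ZMod (a b) → ZMod a × ZMod b` is injective). -/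
def S_MOD : Prop := ∀ (n : ℕ) (Λ : Type) [Group Λ]
  (f : ∀ m : ℕ, Λ →* SpecialLinearGroup (Fin n) (ZMod m)), Compat f →
  ∀ (σ : Λ →* GL (Fin n) ℤ),
  (∀ (p : ℕ) [Fact p.Prime], ∃ (ρ : Λ →* SpecialLinearGroup (Fin n) ℤ_[p]) (T : GL (Fin n) ℤ_[p]),
    (∀ (k : ℕ) (g : Λ), SpecialLinearGroup.map (PadicInt.toZModPow k) (ρ g) = 1 ↔ f (p ^ k) g = 1) ∧
    ∀ g, GeneralLinearGroup.map (Int.castRingHom ℤ_[p]) (σ g) * T = T * SpecialLinearGroup.toGL (ρ g)) →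
  ∃ σ' : Λ →* SZ n, (∀ g, (σ' g).val = (σ g).val) ∧
    ∀ m : ℕ, 0 < m → ∀ g, SpecialLinearGroup.map (Int.castRingHom (ZMod m)) (σ' g) = 1 ↔ f m g = 1

/-- **EMB**. The image is dense.

Proof. Let `f₀ : SL_n(ℤ) → Q`, `Q` finite. By `csp` (library: `Pool.Agent.TH610.CSP.csp`, `Pool/Graph/R_pool_sql_team_seeded_ab47071d/TH610/CSP/Main.lean`) there is `M > 0` such that every `A ≡ 1 mod M` is in `ker f₀`. Let `r : SL_n(ℤ) → SL_n(ℤ/M)`. The homomorphism `r ∘ σ`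
has the same kernel as the surjective `f M`, so its image has as many elements as the finite group `SL_n(ℤ/M)` (`|Λ ⧸ ker|`), so `r ∘ σ` is surjective. For `g ∈ SL_n(ℤ)` choose `u` with `r(σ(u)) = r(g)`; then `σ(u)⁻¹ g ≡ 1 mod M` and `f₀(σ(u)) = f₀(g)`. -/
def S_EMB : Prop := ∀ (n : ℕ), 3 ≤ n → ∀ (Λ : Type) [Group Λ]
  (f : ∀ m : ℕ, Λ →* SpecialLinearGroup (Fin n) (ZMod m)) (σ : Λ →* SZ n),
  (∀ m, 0 < m → Function.Surjective (f m)) →
  (∀ m : ℕ, 0 < m → ∀ g, SpecialLinearGroup.map (Int.castRingHom (ZMod m)) (σ g) = 1 ↔ f m g = 1) →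
  PDense σ.range

/-- **RKZ**. An integral matrix which is of rank at most one over a field of characteristic zero is `a b` with integral vectors.

Proof. If `A = 0` take zero vectors. Otherwise all `2 × 2` minors of `A` vanish: `A_ij A_kl = A_il A_kj` (in `K`, so in `ℤ`). Choose a row `i` with `A_i ≠ 0`, let `d > 0` be the gcd of its entries, `b = A_i / d`, a vector with entries of gcd 1, `1 = ∑ c_j b_j`.
For every row `k`: `A_ij A_kl = A_il A_kj`, so `b_j A_kl = b_l A_kj` for all `j, l`; multiply by `c_j` and sum: `A_kl = b_l a_k`, `a_k = ∑ c_j A_kj`. -/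
def S_RKZ : Prop := ∀ (K : Type) [Field K] [CharZero K] (n : ℕ) (A : Matrix (Fin n) (Fin n) ℤ)
  (v φ : Fin n → K), A.map (Int.castRingHom K) = vecMulVec v φ →
  ∃ a b : Fin n → ℤ, A = vecMulVec a b

/-- **LIN**. A matrix in `SL_n(ℤ)` which commutes with `a b` maps `a` to `± a`.

Proof. Choose `j` with `b_j ≠ 0`. Column `j` of `u (a b) = (a b) u`: `b_j (u a) = (b u)_j a`. Let `d` be the gcd of the entries of `a`, `a = d w`, `1 = ∑ c_i w_i`. So `b_j (u w) = s w` with `s = (b u)_j`; multiply by the `c_i` and sum: `b_j ∑ c_i (u w)_i = s`, so `s = b_j l`, `l ∈ ℤ`, and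
`u w = l w`. Similarly for `u⁻¹` (it also commutes): `u⁻¹ w = l' w`, so `l l' = 1`, `l = ± 1`. -/
def S_LIN : Prop := ∀ (n : ℕ) (u : SZ n) (a b : Fin n → ℤ), a ≠ 0 → b ≠ 0 →
  u.val * vecMulVec a b = vecMulVec a b * u.val → u.val *ᵥ a = a ∨ u.val *ᵥ a = -a

/-- **KER**. All `ρ_p` have the same kernel, which is contained in the kernels of all `f m`.

Proof. Let `ρ_p(g) = 1`. (1) `ψ(g h) = ψ(h)` for all `h`: if `tr ρ_p = ψ` this is clear. If `tr ρ_p(h) = ψ(h⁻¹)` for all `h`: `ψ(g h) = tr ρ_p(h⁻¹ g⁻¹) = tr ρ_p(h⁻¹) = ψ(h)`. (`ℤ → ℤ_[p]` is injective.) (2) So for every prime `q` `tr(ρ_q(g) ρ_q(h)) = tr ρ_q(h)` for all `h`: clear if `tr ρ_q = ψ`; if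
`tr ρ_q(h) = ψ(h⁻¹)`: `tr ρ_q(g h) = ψ(h⁻¹ g⁻¹)`; use (1) for `g⁻¹` (also in the kernel) and `ψ(x y) = ψ(y x)` (traces): `ψ(h⁻¹ g⁻¹) = ψ(g⁻¹ h⁻¹) = ψ(h⁻¹)`. So `tr((ρ_q(g) - 1) ρ_q(h)) = 0` for all `h`, so `ρ_q(g) = 1` (`AI`).
(3) So `f (q^k) g = 1` for all prime powers, and by `Compat` `f m g = 1` for all `m > 0` (as in `S_MOD`). -/
def S_KER : Prop := ∀ (n : ℕ) (Λ : Type) [Group Λ]
  (f : ∀ m : ℕ, Λ →* SpecialLinearGroup (Fin n) (ZMod m)), Compat f →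
  ∀ (ρ : ∀ (p : ℕ) [Fact p.Prime], Λ →* SpecialLinearGroup (Fin n) ℤ_[p]),
  (∀ (p : ℕ) [Fact p.Prime] (k : ℕ) (g : Λ), SpecialLinearGroup.map (PadicInt.toZModPow k) (ρ p g) = f (p ^ k) g) →
  (∀ (p : ℕ) [Fact p.Prime], AI ((toQ n p).comp (ρ p))) →
  ∀ ψ : Λ → ℤ, (∀ (p : ℕ) [Fact p.Prime],
    (∀ g, (ρ p g).val.trace = (ψ g : ℤ_[p])) ∨ (∀ g, (ρ p g).val.trace = (ψ g⁻¹ : ℤ_[p]))) →
  ∀ (p : ℕ) [Fact p.Prime] (g : Λ), ρ p g = 1 → ∀ m : ℕ, 0 < m → f m g = 1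

/-- **SIG** (hypotheses `S_AIE`, `S_CNJ`, `S_LAT`, `S_ING`, `S_MOD`, `S_PAI`). The integral representation `σ`.

Proof. (`p₀ = 2` below; `K = AlgebraicClosure ℚ_[2]`.) Replacing `ψ` by `ψ'(g) = ψ(g⁻¹)` if necessary we may assume `tr ρ_2(g) = ψ(g)` for all `g` (the hypothesis on `ψ` is symmetric). Let `ρ_K = (GeneralLinearGroup.map (algebraMap ℚ_[2] K)) ∘ toQ ∘ ρ_2`; it is `AI`
(`S_PAI`, `S_AIE`) with traces `ψ`. By `S_LAT` there are `σ₀ : Λ → GL_n(ℤ)`, `P` over `K` with `σ₀(g) P = P ρ_K(g)`; so `tr σ₀(g) = ψ(g)`. Let `q` be a prime and `ρ'_q = ρ_q` if `tr ρ_q = ψ`, `ρ'_q = dl ∘ ρ_q` if `tr ρ_q(g) = ψ(g⁻¹)`; then `tr ρ'_q = ψ`, `ρ'_q` is dense (`S_PAI`), so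
`AI` (`S_PAI` again). `S_CNJ` for `K = ℚ_[q]`, `ρ = toQ ∘ ρ'_q` and `σ = σ₀` mapped to `ℚ_[q]` gives `P_q`, and `S_ING` gives `T_q`. `ρ'_q(g) ≡ 1 mod q^k` iff `ρ_q(g) ≡ 1 mod q^k` iff `f (q^k) g = 1`. Apply `S_MOD`. Finally `σ'(t) - 1` is, over `K`,
`P (v φ) P⁻¹ = (P v)(φ P⁻¹)`. -/
def S_SIG : Prop := ∀ (n : ℕ), 3 ≤ n → ∀ (Λ : Type) [Group Λ]
  (f : ∀ m : ℕ, Λ →* SpecialLinearGroup (Fin n) (ZMod m)), Compat f →
  ∀ (ρ : ∀ (p : ℕ) [Fact p.Prime], Λ →* SpecialLinearGroup (Fin n) ℤ_[p]),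
  (∀ (p : ℕ) [Fact p.Prime] (k : ℕ) (g : Λ), SpecialLinearGroup.map (PadicInt.toZModPow k) (ρ p g) = f (p ^ k) g) →
  (∀ (p : ℕ) [Fact p.Prime], DenseP (ρ p)) →
  ∀ ψ : Λ → ℤ, (∀ (p : ℕ) [Fact p.Prime],
    (∀ g, (ρ p g).val.trace = (ψ g : ℤ_[p])) ∨ (∀ g, (ρ p g).val.trace = (ψ g⁻¹ : ℤ_[p]))) →
  haveI : Fact (Nat.Prime 2) := ⟨Nat.prime_two⟩
  ∀ (t : Λ) (v φ : Fin n → AlgebraicClosure ℚ_[2]), v ≠ 0 → φ ≠ 0 →
  (GeneralLinearGroup.map (algebraMap ℚ_[2] (AlgebraicClosure ℚ_[2])) (toQ n 2 (ρ 2 t))).val = 1 + vecMulVec v φ →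
  ∃ σ : Λ →* SZ n,
    (∀ m : ℕ, 0 < m → ∀ g, SpecialLinearGroup.map (Int.castRingHom (ZMod m)) (σ g) = 1 ↔ f m g = 1) ∧
    ∃ v' φ' : Fin n → AlgebraicClosure ℚ_[2],
      ((σ t).val - 1).map (Int.castRingHom (AlgebraicClosure ℚ_[2])) = vecMulVec v' φ'

/-- **FIS** (hypotheses `S_RKZ`, `S_LIN`). The last step, from the library theorem on dense subgroups
(`Pool/Graph/R_pool_sql_team_seeded_707910d6/Results/MP_a2a22c_al/AxisStabilizer.lean`, `result`, second part).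

Proof. `σ(LC x m ^ E) = 1 + a b` with integral `a, b` (`S_RKZ`); `a, b ≠ 0` since `σ` is injective and `(LC x m)^E ≠ 1` (`¬ IsOfFinOrder`, `E > 0`). Let `w = LC x (m-1)`, so `LC x m = ⁅w, x m⁆` (`m ≥ 1`), a central element of `N` (as `lowerCentralSeries N (m+1) = ⊥`;
`LC x m ∈ lowerCentralSeries N m` by induction). Put `t = σ((LC x m)^E)`, `u = σ(w)`; they commute, so `u` commutes with `a b`, so `u a = ± a` (`S_LIN`). If `u^i = t^j` then `w^i = (LC x m)^{E j}` is central in `N`, so `1 = ⁅w^i, x m⁆ = ⁅w, x m⁆^i` (as `⁅w, x m⁆` is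
central), so `(LC x m)^i = 1`, `i = 0`; then `(LC x m)^{E j} = 1`, so `j = 0`. So the library theorem applies to `H = σ.range` (`PDense` is its `ProfinitelyDense`): `σ.range = ⊤`, and `σ` is an isomorphism. -/
def S_FIS : Prop := ∀ (m : ℕ), 1 ≤ m → ∀ (Λ : Type) [Group Λ] (N : Subgroup Λ),
  (⊤ : Subgroup N).lowerCentralSeries (m + 1) = ⊥ → ∀ (x : ℕ → N) (E : ℕ), 0 < E →
  ¬ IsOfFinOrder (LC x m) → ∀ σ : Λ →* SZ (m + 2), Function.Injective σ → PDense σ.range →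
  ∀ (K : Type) [Field K] [CharZero K] (v φ : Fin (m + 2) → K),
  ((σ ((LC x m : N) : Λ) ^ E).val - 1).map (Int.castRingHom K) = vecMulVec v φ →
  Nonempty (Λ ≃* SZ (m + 2))

/-- The theorem. -/
def S_MAIN : Prop := ∀ (n : ℕ), 3 ≤ n → ∀ (Λ : Type) [Group Λ], Group.FG Λ →
  (∀ g : Λ, g ≠ 1 → ∃ H : Subgroup Λ, H.index ≠ 0 ∧ g ∉ H) →
  (∀ (Q : Type) [Group Q] [Finite Q],
    (∃ f : Λ →* Q, Function.Surjective f) ↔ (∃ f : SZ n →* Q, Function.Surjective f)) →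
  (∃ N : Subgroup Λ, N.lowerCentralSeries (n - 1) = ⊥ ∧
    ∃ c ∈ N.lowerCentralSeries (n - 2), ¬ IsOfFinOrder c) →
  Nonempty (Λ ≃* SZ n)

end Pool.Agent.H317.GR
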