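import Mathlib
import Pool.Agent.H317.GR.StmB

/-! # Project GR: assembly of the theorem from the parts -/

set_option autoImplicit false

namespace Pool.Agent.H317.GR

open Matrix Module
open scoped commutatorElement

theorem toQ_inj (n p : ℕ) [Fact p.Prime] : Function.Injective (toQ n p) := by
  intro A B h
  have h1 : (toQ n p A).val = (toQ n p B).val := by rw [h]
  apply Subtype.ext
  ext i j
  have h2 := congrFun (congrFun h1 i) j
  change algebraMap ℤ_[p] ℚ_[p] (A.val i j) = algebraMap ℤ_[p] ℚ_[p] (B.val i j) at h2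
  exact (FaithfulSMul.algebraMap_injective ℤ_[p] ℚ_[p]) h2

theorem glmap_inj (n : ℕ) (K L : Type) [Field K] [Field L] (j : K →+* L) :
    Function.Injective (GeneralLinearGroup.map (n := Fin n) j) := by
  intro A B h
  have h1 : (GeneralLinearGroup.map j A).val = (GeneralLinearGroup.map j B).val := by rw [h]
  apply Units.ext
  ext a b
  have h2 := congrFun (congrFun h1 a) b
  change j (A.val a b) = j (B.val a b) at h2
  exact j.injective h2

theorem main (hGNC : S_GNC) (hNILP : S_NILP) (hLIM : S_LIM) (hPAD : S_PAD) (hPAI : S_PAI)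
    (hTRZ : S_TRZ) (hFAC : S_FAC) (hKER : S_KER) (hSIG : S_SIG) (hEMB : S_EMB) (hFIS : S_FIS) :
    S_MAIN := by
  intro n hn Λ _ hfg hrf hq hN
  obtain ⟨m, rfl⟩ : ∃ m, n = m + 2 := ⟨n - 2, by omega⟩
  have hm : 1 ≤ m := by omega
  obtain ⟨N, hN1, c, hc, hcinf⟩ := hN
  have e1 : m + 2 - 1 = m + 1 := by omega
  have e2 : m + 2 - 2 = m := by omega
  rw [e1] at hN1
  rw [e2] at hc
  have : Group.FG Λ := hfg
  have h1 : QLE Λ (SZ (m + 2)) := fun Q _ _ h => (hq Q).1 h
  have h2 : QLE (SZ (m + 2)) Λ := fun Q _ _ h => (hq Q).2 h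
  obtain ⟨f, hfs, hfc⟩ := hLIM (m + 2) Λ h2
  have hP : ∀ (p : ℕ) (hp : Fact p.Prime), ∃ ρ : Λ →* SpecialLinearGroup (Fin (m + 2)) ℤ_[p],
      DenseP ρ ∧ ∀ (k : ℕ) (g : Λ),
        SpecialLinearGroup.map (PadicInt.toZModPow k) (ρ g) = f (p ^ k) g :=
    fun p hp => hPAD (m + 2) Λ f hfc hfs p
  choose ρ hρd hρk using hP
  obtain ⟨ψ, hψ⟩ := hTRZ (m + 2) hn Λ h1 h2 (fun p hp => ρ p hp) (fun p hp => hρd p hp)
  have hres : ∀ g : Λ, (∀ M, 0 < M → f M g = 1) → g = 1 := by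
    intro g hg
    by_contra hne
    obtain ⟨H, hH, hgH⟩ := hrf g hne
    have : H.FiniteIndex := ⟨hH⟩
    have : Finite (Λ ⧸ H.normalCore) := Subgroup.finite_quotient_of_finiteIndex
    obtain ⟨M, hM, hM2⟩ := hFAC (m + 2) hn Λ h1 (Λ ⧸ H.normalCore)
    have h3 := hM2 (f M) (hfs M hM) (QuotientGroup.mk' H.normalCore)
      ((f M).mem_ker.2 (hg M hM))
    rw [QuotientGroup.ker_mk'] at h3
    exact hgH (H.normalCore_le h3)
  have hAI : ∀ (p : ℕ) (hp : Fact p.Prime), AI ((toQ (m + 2) p).comp (ρ p hp)) :=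
    fun p hp => (hPAI (m + 2) hn p Λ (ρ p hp) (hρd p hp)).2.2.1
  have h2p : Fact (Nat.Prime 2) := ⟨Nat.prime_two⟩
  have hker2 : ∀ g, ρ 2 h2p g = 1 → g = 1 := fun g hg =>
    hres g (hKER (m + 2) Λ f hfc (fun p hp => ρ p hp) (fun p hp => hρk p hp)
      (fun p hp => hAI p hp) ψ (fun p hp => hψ p) 2 g hg)
  have hN' : (⊤ : Subgroup N).lowerCentralSeries (m + 1) = ⊥ := by
    have h3 := Subgroup.top_subtype_lowerCentralSeries N (m + 1)
    rw [hN1] at h3
    exact (Subgroup.map_eq_bot_iff_of_injective _ N.subtype_injective).1 h3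
  have hx : ∃ x : ℕ → N, ¬ IsOfFinOrder (LC x m) := by
    by_contra hall
    push Not at hall
    have h3 := hGNC N m hN' hall
    rw [← Subgroup.top_subtype_lowerCentralSeries N m] at hc
    obtain ⟨c', hc', rfl⟩ := hc
    exact hcinf (MonoidHom.isOfFinOrder N.subtype (h3 c' hc'))
  obtain ⟨x, hx⟩ := hx
  let K := AlgebraicClosure ℚ_[2]
  let ρK : Λ →* GL (Fin (m + 2)) K :=
    (GeneralLinearGroup.map (algebraMap ℚ_[2] K)).comp ((toQ (m + 2) 2).comp (ρ 2 h2p))
  have hρK : Function.Injective ρK := by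
    rw [injective_iff_map_eq_one]
    intro g hg
    apply hker2
    apply toQ_inj (m + 2) 2
    rw [map_one]
    apply glmap_inj (m + 2) ℚ_[2] K (algebraMap ℚ_[2] K)
    rw [map_one]
    exact hg
  obtain ⟨E, hE, h3⟩ := hNILP K m hm N (ρK.comp N.subtype) hN' x
  have hne : (LC x m) ^ E ≠ 1 := fun h => hx (isOfFinOrder_iff_pow_eq_one.2 ⟨E, hE, h⟩)
  rcases h3 with h3 | ⟨v, φ, hv, hφ, h3⟩
  · exfalso
    apply hne
    rw [← map_pow] at h3
    apply Subtype.ext
    have h4 : ρK (((LC x m) ^ E : N) : Λ) = 1 := h3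
    refine hρK (h4.trans ?_)
    rw [Subgroup.coe_one, map_one]
  · rw [← map_pow] at h3
    have h4 : (GeneralLinearGroup.map (algebraMap ℚ_[2] (AlgebraicClosure ℚ_[2]))
        (toQ (m + 2) 2 (ρ 2 h2p (((LC x m) ^ E : N) : Λ)))).val = 1 + vecMulVec v φ := h3
    obtain ⟨σ, hσ, v', φ', h5⟩ := hSIG (m + 2) hn Λ f hfc (fun p hp => ρ p hp)
      (fun p hp => hρk p hp) (fun p hp => hρd p hp) ψ (fun p hp => hψ p)
      (((LC x m) ^ E : N) : Λ) v φ hv hφ h4
    have hinj : Function.Injective σ := by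
      rw [injective_iff_map_eq_one]
      intro g hg
      apply hres
      intro M hM
      rw [← hσ M hM g, hg, map_one]
    have hPD : PDense σ.range := hEMB (m + 2) hn Λ f σ hfs hσ
    refine hFIS m hm Λ N hN' x E hE hx σ hinj hPD (AlgebraicClosure ℚ_[2]) v' φ' ?_
    rw [← h5]
    congr 2
    rw [← map_pow]
    rfl

end Pool.Agent.H317.GR
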