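import Mathlib
import Pool.Agent.H317.GR.Main
import Pool.Agent.H51.GR.EXP
import Pool.Agent.H344.GR.IRR
import Pool.Agent.H177.GR.TRI
import Pool.Agent.H30.GR.CLO
import Pool.Agent.H323.GR.GEN
import Pool.Agent.H333.GR.UNI
import Pool.Agent.H706.GR.MUL
import Pool.Agent.H47.GR.GNC
import Pool.Agent.H167.GR.NPD
import Pool.Agent.H401.GR.NILP
import Pool.Agent.H295.GR.STP
import Pool.Agent.H955.GR.STR
import Pool.Agent.H384.GR.SU2
import Pool.Agent.H227.GR.SU1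
import Pool.Agent.H390.GR.SU3
import Pool.Agent.H376.GR.SU4
import Pool.Agent.H21.GR.SUPER
import Pool.Agent.H379.GR.FIN
import Pool.Agent.H668.GR.SCH
import Pool.Agent.H955.GR.CNT
import Pool.Agent.H400.GR.HOM
import Pool.Agent.H695.GR.SRJ
import Pool.Agent.H825.GR.FAC
import Pool.Agent.H115.GR.LIM
import Pool.Agent.H274.GR.PAD
import Pool.Agent.H322.GR.PAI
import Pool.Agent.H772.GR.DSC
import Pool.Agent.H898.GR.RAT
import Pool.Agent.H227.GR.TRZ
import Pool.Agent.H379.GR.AIE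
import Pool.Agent.H355.GR.CNJ
import Pool.Agent.H176.GR.LAT
import Pool.Agent.H322.GR.ING
import Pool.Agent.H640.GR.MOD
import Pool.Agent.H297.GR.EMB
import Pool.Agent.H364.GR.RKZ
import Pool.Agent.H675.GR.LIN
import Pool.Agent.H195.GR.KER
import Pool.Agent.H767.GR.SIG
import Pool.Agent.H264.GR.FIS

/-! # Project GR: all parts -/

set_option autoImplicit false

namespace Pool.Agent.H317.GR

theorem t_nilp : S_NILP := by
  have h2 : S_IRR := Pool.Agent.H344.GR.irr Pool.Agent.H51.GR.exp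
  have h3 : S_TRI := Pool.Agent.H177.GR.tri h2
  have h4 : S_CLO := Pool.Agent.H30.GR.clo
  have h5 : S_GEN := Pool.Agent.H323.GR.gen
  have h6 : S_UNI := Pool.Agent.H333.GR.uni
  have h7 : S_MUL := Pool.Agent.H706.GR.mul
  exact Pool.Agent.H401.GR.nilp h3 h4 h5 h6 h7 (Pool.Agent.H167.GR.npd h3 h4 h5 h6 h7)

theorem t_super : S_SUPER :=
  Pool.Agent.H21.GR.super Pool.Agent.H227.GR.su1
    (Pool.Agent.H384.GR.su2 Pool.Agent.H295.GR.stp (Pool.Agent.H955.GR.str Pool.Agent.H295.GR.stp))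
    Pool.Agent.H390.GR.su3 Pool.Agent.H376.GR.su4

theorem t_cnt : S_CNT :=
  Pool.Agent.H955.GR.cnt Pool.Agent.H379.GR.fin (Pool.Agent.H668.GR.sch t_super)

theorem t_trz : S_TRZ :=
  Pool.Agent.H227.GR.trz t_cnt Pool.Agent.H322.GR.pai Pool.Agent.H772.GR.dsc Pool.Agent.H898.GR.rat

theorem t_fac : S_FAC := Pool.Agent.H825.GR.fac Pool.Agent.H400.GR.hom Pool.Agent.H695.GR.srj

theorem t_lim : S_LIM := Pool.Agent.H115.GR.lim Pool.Agent.H695.GR.srj

theorem t_sig : S_SIG :=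
  Pool.Agent.H767.GR.sig Pool.Agent.H379.GR.aie Pool.Agent.H355.GR.cnj Pool.Agent.H176.GR.lat
    Pool.Agent.H322.GR.ing Pool.Agent.H640.GR.mod Pool.Agent.H322.GR.pai

theorem t_fis : S_FIS := Pool.Agent.H264.GR.fis Pool.Agent.H364.GR.rkz Pool.Agent.H675.GR.lin

theorem t_main : S_MAIN :=
  main Pool.Agent.H47.GR.gnc t_nilp t_lim Pool.Agent.H274.GR.pad Pool.Agent.H322.GR.pai t_trz t_fac
    Pool.Agent.H195.GR.ker t_sig Pool.Agent.H297.GR.emb t_fis

end Pool.Agent.H317.GR
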